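import Pool.Agent.FC.StmtFin
import Pool.Agent.FC.Main

/-!
# Two maximal partitions

For every nontrivial character `ψ` of `𝔸/ℚ` there is an irreducible automorphic representation
`H ⊂ L²(Sp₁₂(ℚ) \ Sp₁₂(𝔸))` for which both `[8,2,2]` and `[6,6]` are maximal among the partitions
with a nonzero Fourier coefficient.
-/

open MeasureTheory

namespace Pool.Agent.Results.MP_9a256f_nt.TwoMaxPartitions

open Pool.Agent.FourierSp

theorem result (ψ : AddChar Adele Circle) (hψ : IsAdelicChar ψ) :
    ∃ μ : Measure (AutQuot 6), IsInvariantRadon μ ∧ ∃ H : Submodule ℂ (L2 μ), IsIrredAut μ H ∧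
      part822 ∈ maxPartitions ψ μ H ∧ part66 ∈ maxPartitions ψ μ H :=
  of_main Pool.Agent.FC.main ψ hψ

end Pool.Agent.Results.MP_9a256f_nt.TwoMaxPartitions
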